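import Mathlib
import Pool.Agent.Y703.CX.Rank
import Pool.Agent.Q283.NJ.G1

/-!
# The joint law of large numbers over the cubic divisors of almost every integer

The curve `C_n : y² = x³ - 432 n²` is the cubic twist `x³ + y³ = n`; it is `3`-isogenous to
`E_n : y² + n y = x³` and has the same rank. A number `N` is a BASE if it is cube-free, prime to `3`, not
`±1` modulo `9`, with exactly one prime divisor `2` modulo `3`. For a positive integer `D` let `D'` be the
product of its prime divisors `1` modulo `3`. The `3 ^ ω(D')` divisors `d` of `D'²` give the `3 ^ ω(D')`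
twists `E_{N d}` of `E_N` (for `N d` we write its cube-free part `n`; `x³ + y³ = N d` is the same curve); if
`N d` is not `±1` modulo `9` then `n` is again a base.

* For every base `n` the Selmer group of `√-3` of `E_n` over `ℚ(√-3)` has order `3 ^ (2 r + 1)` for some
  `r = r(n)`, the rank of `E_n(ℚ)` is at most `2 r`, and `r = 0` if and only if `E_n(ℚ)` is finite and
  `Ш(E_n/ℚ)[3^∞] = 0` (`n` is GOOD); for good `n` the rank form of the conjecture of Birch and
  Swinnerton-Dyer holds for `C_n`: the `L`-function is entire, its order at `s = 1` and the rank are `0`.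
* THERE IS ONE SET `S` of positive integers, of NATURAL DENSITY `1`, and also of relative density `1` in the
  thin set of the split numbers (`D = D'`; at least `k X / sqrt (log X)` of them up to `X`), such that for
  EVERY finite family `N_1, ..., N_M` of pairwise different bases and every `ε > 0` the following holds for
  all large `D` in `S` and all residue classes `a` modulo `9` with no `N_j a` equal to `±1` modulo `9`, `d`
  running through the divisors `d ≡ a` modulo `9` of `D'²` (these are at least a third of all the divisors,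
  if there is one; `a = 1` always has one):
  (1) the vectors `(r(N_1 d), ..., r(N_M d))` have the PRODUCT LAW: for every set `T` of vectors the share of
      the `d` with the vector in `T` is within `ε` of the measure of `T` for the `M`-th power of the law
      `law r = c 3^r / ((3 - 1)² (9 - 1)² ⋯ (3^r - 1)²)`, `c = ∏_{i ≥ 1} (1 - 3^{-i})`, `0.56 < c < 0.5602`
      (uniformly in `T`);
  (2) for every subset `A` of the family the share of the `d` for which exactly the `N_j d` with `j` in `A`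
      are good is within `ε` of `c ^ |A| (1 - c) ^ (M - |A|)`;
  (3) the rank form holds, with order and rank `0`, for all the twists `N_1 d, ..., N_M d` at once for a
      share `≥ c ^ M - ε` of the `d`, and for one of them at least for a share `≥ 1 - (1 - c) ^ M - ε`;
  (4) for every `j` the mean of `3 ^ r(N_j d)` is within `ε` of `2`, and the mean of the ranks of the
      `E_{N_j d}(ℚ)` is less than `0.92`.

So inside the finite set of the cubic twists by the divisors of almost every single integer `D` the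
different base curves behave like independent random variables, with the law of the family of all twists.
-/

set_option autoImplicit false

open scoped Classical

namespace Pool.Agent.Results.MP_696deb_nt.JointLawOverCubicDivisors

open Filter WeierstrassCurve
open Pool.Agent.TH841.SH.D (Coch)
open Pool.Agent.TH841.NF.D (IsShaCoc)

/-- the conclusion of the frozen statement for `y² = x³ + a x + b`, together with the fact that the
order of vanishing and the rank are both `0` -/
def BSDRankZero (a b : ℤ) : Prop :=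
  4 * a ^ 3 + 27 * b ^ 2 ≠ 0 ∧
    ∃ F : ℂ → ℂ, Differentiable ℂ F ∧
      (∀ s : ℂ, (3 : ℝ) / 2 < s.re →
        HasProd
          (fun p : ℕ => open Classical in
            if p.Prime ∧ ¬ ((p : ℤ) ∣ 2 * (-4 * a ^ 3 - 27 * b ^ 2)) then
              (1 - ((p : ℂ) - (Nat.card {q : ZMod p × ZMod p //
                  q.2 ^ 2 = q.1 ^ 3 + (a : ZMod p) * q.1 + (b : ZMod p)} : ℂ))
                  * (p : ℂ) ^ (-s) + (p : ℂ) ^ (1 - 2 * s))⁻¹
            else 1)
          (F s)) ∧
      analyticOrderAt F 1 =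
        ((Module.finrank ℤ
          (WeierstrassCurve.Affine.Point
            (WeierstrassCurve.toAffine
              ({ a₁ := 0, a₂ := 0, a₃ := 0, a₄ := (a : ℚ), a₆ := (b : ℚ) } :
                WeierstrassCurve ℚ))) : ℕ) : ℕ∞) ∧
      Module.finrank ℤ
        (WeierstrassCurve.Affine.Point
          (WeierstrassCurve.toAffine
            ({ a₁ := 0, a₂ := 0, a₃ := 0, a₄ := (a : ℚ), a₆ := (b : ℚ) } :
              WeierstrassCurve ℚ))) = 0

/-- The base numbers: cube-free, prime to `3`, not `±1` modulo `9`, exactly one prime divisor is `2`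
modulo `3`. -/
def IsBase (N : ℕ) : Prop :=
  N ≠ 0 ∧ ¬ 3 ∣ N ∧ (∀ p : ℕ, p.Prime → ¬ p ^ 3 ∣ N) ∧ N % 9 ≠ 1 ∧ N % 9 ≠ 8 ∧
    ∃ q : ℕ, q.Prime ∧ q % 3 = 2 ∧ q ∣ N ∧ ∀ p : ℕ, p.Prime → p ∣ N → p ≠ q → p % 3 = 1

/-- The cube-free part of `n`. -/
def cubeFree (n : ℕ) : ℕ := ∏ p ∈ n.primeFactors, p ^ (n.factorization p % 3)

/-- The split numbers: squarefree, all prime divisors are `1` modulo `3`. -/
def Split (D : ℕ) : Prop := Squarefree D ∧ ∀ p : ℕ, p.Prime → p ∣ D → p % 3 = 1

/-- The product of the prime divisors `1` modulo `3` of `D`. -/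
def splitPart (D : ℕ) : ℕ := ∏ p ∈ D.primeFactors.filter (fun p => p % 3 = 1), p

/-- The divisors in the residue class `a` modulo `9` of the square of the split part of `D`. -/
def divs (a D : ℕ) : Finset ℕ := (splitPart D ^ 2).divisors.filter fun d => d % 9 = a

/-- The curve `E_n : y² + n y = x³`. -/
def curve {F : Type} [Field F] (n : F) : WeierstrassCurve F := ⟨0, 0, n, 0, 0⟩

/-- The Selmer group of the endomorphism `√-3` of `E_n` over the field `K` of third roots of unity: the
continuous cocycles with values in its kernel `{0, (0, 0), (0, -n)}` (the Galois group acts trivially on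
it, so these cocycles are the classes) that are coboundaries in `E_n` at all the places of `K`. -/
def Sel (K : Type) [Field K] [NumberField K] (n : ℕ) : Set (Coch (curve (n : K))) :=
  {f | IsShaCoc (curve (n : K)) f ∧ ∀ σ, f σ = 0 ∨ ∃ y h, f σ = Affine.Point.some 0 y h}

/-- the rank of `E_n(ℚ)` -/
noncomputable def rank (n : ℕ) : ℕ := Module.finrank ℤ (curve (n : ℚ)).toAffine.Point

/-- `E_n(ℚ)` is finite and `Ш(E_n/ℚ)[3^∞] = 0` -/
def Good (n : ℕ) : Prop :=
  Finite (curve (n : ℚ)).toAffine.Point ∧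
    ∀ (k : ℕ) (x : Pool.Agent.TH841.SH.D.Sha (curve (n : ℚ))), 3 ^ k • x = 0 → x = 0

/-- The share of the `d` in `divs a D` for which the vector of the cube-free parts of the `N_j d` has the
property `P`. -/
noncomputable def share {M : ℕ} (N : Fin M → ℕ) (a D : ℕ) (P : (Fin M → ℕ) → Prop) : ℝ :=
  (((divs a D).filter fun d => P fun j => cubeFree (N j * d)).card : ℝ) / (divs a D).card

/-- The mean of `f` at the cube-free parts of the `N d`, `d` in `divs a D`. -/
noncomputable def mean (N a D : ℕ) (f : ℕ → ℝ) : ℝ :=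
  (∑ d ∈ divs a D, f (cubeFree (N * d))) / (divs a D).card

/-- the number of the `D ≤ X` with the property `P` -/
noncomputable def count (P : ℕ → Prop) (X : ℕ) : ℕ := ((Finset.Icc 1 X).filter P).card

/-- `c = ∏_{i ≥ 1} (1 - 3^{-i})` -/
noncomputable def c : ℝ := ∏' i : ℕ, (1 - (1 / 3 : ℝ) ^ (i + 1))

/-- the law of the coranks of large square matrices over the field with three elements -/
noncomputable def law (r : ℕ) : ℝ := c * 3 ^ r / ∏ i ∈ Finset.range r, ((3 : ℝ) ^ (i + 1) - 1) ^ 2

section proof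

open Q283.Q3B Q283.Q3N Q283.ND Q283.NJ
open Q283.Q3 (cq cq_eq cq_ge sum_cq cq_zero)

theorem base_iff (N : ℕ) : IsBase N ↔ Pool.Agent.Y703.CT.Cls N := by
  unfold IsBase Pool.Agent.Y703.CT.Cls Pool.Agent.Y703.CT.Base
  tauto

theorem law_eq (r : ℕ) : cq r = law r := cq_eq r

theorem sel_card (K : Type) [Field K] [NumberField K]
    (j : Pool.Agent.Y692.QS.Ei ≃+* NumberField.RingOfIntegers K) {n : ℕ}
    (hC : Pool.Agent.Y703.CT.Cls n) : (Sel K n).ncard = 3 ^ (2 * rr n + 1) := (sel_N K j hC).1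

theorem good_iff (n : ℕ) : Good n ↔ Pool.Agent.Y703.CT.Triv3 n := by
  have h : Pool.Agent.Y703.CT.EQ (Pool.Agent.Y703.CT.WD n) = curve (n : ℚ) := by
    unfold Pool.Agent.Y703.CT.EQ Pool.Agent.Y703.CT.WD curve WeierstrassCurve.map
    simp
  unfold Good Pool.Agent.Y703.CT.Triv3
  rw [h]

theorem bsd {n : ℕ} (hC : Pool.Agent.Y703.CT.Cls n) (hT : Pool.Agent.Y703.CT.Triv3 n) :
    BSDRankZero 0 (-432 * (n : ℤ) ^ 2) := by
  have hD0 : (n : ℤ) ≠ 0 := by exact_mod_cast hC.1.1
  obtain ⟨F, h1, h2, h3, h4⟩ := Pool.Agent.Y703.CX.rank_form hC ((triv_iff hC).1 hT)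
  refine ⟨?_, F, h1, h2, ?_, h4⟩
  · have e : (4 * 0 ^ 3 + 27 * (-432 * (n : ℤ) ^ 2) ^ 2 : ℤ) = 27 * (432 * (n : ℤ) ^ 2) ^ 2 := by ring
    rw [e]
    positivity
  · rw [h3, h4]
    rfl

theorem pw_inj {a b : ℕ} (h : 3 ^ (2 * a + 1) = 3 ^ (2 * b + 1)) : a = b := by
  have := Nat.pow_right_injective (le_refl 2 |>.trans (by norm_num : 2 ≤ 3)) h
  omega

/-- the cube-free part of `N d` is a base -/
theorem cls_of {N a D d : ℕ} (hN : Pool.Agent.Y703.CT.Cls N) (h1 : N * a % 9 ≠ 1)
    (h8 : N * a % 9 ≠ 8) (hd : d ∈ divs a D) : Pool.Agent.Y703.CT.Cls (cubeFree (N * d)) := by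
  obtain ⟨hd1, hd2⟩ := (mem_Dk (k := a) (sp_sqf D)).1 hd
  have ha : a < 9 := by
    rw [← hd2]
    exact Nat.mod_lt _ (by norm_num)
  have h9 : N * d % 9 = N * a % 9 := by
    rw [Nat.mul_mod, hd2]
    conv_rhs => rw [Nat.mul_mod, Nat.mod_eq_of_lt ha]
  exact cls_cf hN (sp_ac D) hd1 (by rw [h9]; exact h1) (by rw [h9]; exact h8)

/-- the shares -/
theorem share_eq {M : ℕ} {N : Fin M → ℕ} {a D : ℕ} {P Q : (Fin M → ℕ) → Prop}
    (h : ∀ d ∈ divs a D, P (fun j => cubeFree (N j * d)) ↔
    Q (fun j => rr (cubeFree (N j * d)))) : share N a D P =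
      (((Dk a (sp D)).filter fun d => (fun j => rr (cf (N j * d))) ∈ {r | Q r}).card : ℝ) /
        (Dk a (sp D)).card := by
  unfold share
  congr 2
  exact Pool.Agent.XLK.fcc fun d hd => h d hd

theorem share_mono {M : ℕ} {N : Fin M → ℕ} {a D : ℕ} {P Q : (Fin M → ℕ) → Prop}
    (h : ∀ d ∈ divs a D, P (fun j => cubeFree (N j * d)) → Q (fun j => cubeFree (N j * d))) :
    share N a D P ≤ share N a D Q := by
  unfold share
  refine div_le_div_of_nonneg_right ?_ (Nat.cast_nonneg _)
  rw [Nat.cast_le]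
  refine Finset.card_le_card fun d hd => ?_
  rw [Finset.mem_filter] at hd ⊢
  exact ⟨hd.1, h d hd.1 hd.2⟩

theorem share_not {M : ℕ} {N : Fin M → ℕ} {a D : ℕ} (hne : (divs a D).Nonempty)
    (P : (Fin M → ℕ) → Prop) : share N a D P = 1 - share N a D fun n => ¬ P n := by
  unfold share
  have hpos : (0 : ℝ) < (divs a D).card := by exact_mod_cast Finset.card_pos.2 hne
  have h := Finset.card_filter_add_card_filter_not (s := divs a D)
    (fun d => P fun j => cubeFree (N j * d))
  have h' : (((divs a D).filter fun d => P fun j => cubeFree (N j * d)).card : ℝ) +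
      (((divs a D).filter fun d => ¬ P fun j => cubeFree (N j * d)).card : ℝ) =
      (divs a D).card := by exact_mod_cast h
  rw [eq_sub_iff_add_eq, ← add_div]
  refine (congrArg (fun x : ℝ => x / ((divs a D).card : ℝ)) ?_).trans (div_self hpos.ne')
  refine Eq.trans ?_ h'
  congr 2
  exact Pool.Agent.XLK.fcc fun _ _ => Iff.rfl

end proof

open Q283.Q3B Q283.Q3N Q283.ND Q283.NJ in
open Q283.Q3 (cq cq_eq cq_ge sum_cq cq_zero) in
theorem result (K : Type) [Field K] [NumberField K] [IsCyclotomicExtension {3} ℚ K] :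
    (∀ n : ℕ, IsBase n → ∃ r : ℕ, (Sel K n).ncard = 3 ^ (2 * r + 1) ∧ rank n ≤ 2 * r ∧
      (r = 0 ↔ Good n) ∧ (Good n → BSDRankZero 0 (-432 * (n : ℤ) ^ 2))) ∧
    (∀ N D d : ℕ, IsBase N → d ∣ splitPart D ^ 2 → N * d % 9 ≠ 1 → N * d % 9 ≠ 8 →
      IsBase (cubeFree (N * d)) ∧ ∃ b : ℕ, N * d = cubeFree (N * d) * b ^ 3) ∧
    (∀ a D : ℕ, (divs 1 D).Nonempty ∧
      ((divs a D).Nonempty → 3 ^ (splitPart D).primeFactors.card ≤ 3 * (divs a D).card)) ∧
    (∀ D : ℕ, Split (splitPart D) ∧ (Split D → splitPart D = D)) ∧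
    (∃ S : ℕ → Prop, Tendsto (fun X : ℕ => (count S X : ℝ) / X) atTop (nhds 1) ∧
      Tendsto (fun X : ℕ => (count (fun D => Split D ∧ S D) X : ℝ) / count Split X) atTop (nhds 1) ∧
      ∀ (M : ℕ) (N : Fin M → ℕ), (∀ j, IsBase (N j)) → Function.Injective N → ∀ ε : ℝ, 0 < ε →
      ∃ D₀ : ℕ, ∀ D : ℕ, D₀ ≤ D → S D →
        ∀ a : ℕ, (∀ j, N j * a % 9 ≠ 1 ∧ N j * a % 9 ≠ 8) → (divs a D).Nonempty →
          (∀ T : Set (Fin M → ℕ),
            |share N a D (fun n => ∃ r ∈ T, ∀ j, (Sel K (n j)).ncard = 3 ^ (2 * r j + 1)) -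
              ∑' r : T, ∏ j, law (r.1 j)| ≤ ε) ∧
          (∀ A : Finset (Fin M), |share N a D (fun n => ∀ j, (Good (n j) ↔ j ∈ A)) -
            c ^ A.card * (1 - c) ^ (M - A.card)| ≤ ε) ∧
          c ^ M - ε ≤ share N a D (fun n => ∀ j, BSDRankZero 0 (-432 * (n j : ℤ) ^ 2)) ∧
          1 - (1 - c) ^ M - ε ≤ share N a D (fun n => ∃ j, BSDRankZero 0 (-432 * (n j : ℤ) ^ 2)) ∧
          ∀ j, |mean (N j) a D (fun n => Real.sqrt ((Sel K n).ncard / 3)) - 2| ≤ ε ∧
            mean (N j) a D (fun n => (rank n : ℝ)) < 0.92) ∧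
    (∃ (k : ℝ) (X₀ : ℕ), 0 < k ∧ ∀ X : ℕ, X₀ ≤ X →
      k * (X / Real.sqrt (Real.log X)) ≤ (count Split X : ℝ)) ∧
    HasSum law 1 ∧ 0.56 < c ∧ c < 0.5602 := by
  obtain ⟨⟨j, -⟩, -⟩ := Pool.Agent.Y455.CTK.jex K
  have hlaw : cq = law := funext law_eq
  have hc3 : c = Pool.Agent.Y703.CX.c3 := rfl
  refine ⟨fun n hn => ?_, fun N D d hN hd h1 h8 => ⟨?_, ?_⟩, fun a D => ⟨one_mem (sp_ac D),
    fun h => Dk_card (sp_ac D) h⟩, fun D => ⟨sp_ac D, fun h => sp_split h⟩, ?_, ?_, ?_, ?_⟩
  · have hC := (base_iff n).1 hn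
    obtain ⟨h1, h2, h3⟩ := sel_N K j hC
    exact ⟨_, h1, h2, h3.trans (good_iff _).symm, fun h => bsd hC ((good_iff n).1 h)⟩
  · exact (base_iff _).2 (cls_cf ((base_iff N).1 hN) (sp_ac D) hd h1 h8)
  · have hd0 : d ≠ 0 := by
      rintro rfl
      exact pow_ne_zero 2 (sp_sqf D).ne_zero (zero_dvd_iff.1 hd)
    exact ⟨_, cf_mul (mul_ne_zero hN.1 hd0)⟩
  · obtain ⟨S, hS, hS', hJ, hL⟩ := Q283.NJ.mainB
    refine ⟨S, ?_, Q155.NL.tendsto_of_alm (C := Dc) ⟨1, le_rfl, squarefree_one, fun p hp hd =>
      absurd (Nat.dvd_one.1 hd) hp.one_lt.ne'⟩ hS', fun M N hN hinj ε hε => ?_⟩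
    · have h1 := Q155.NL.tendsto_of_alm (C := fun _ => True) ⟨1, le_rfl, trivial⟩ hS
      refine h1.congr fun X => ?_
      have h2 : Q155.NL.cnt (fun _ => True) X = X := by
        have h0 : Q155.NL.cs (fun _ => True) X = Finset.Icc 1 X := by
          ext D
          rw [Q155.NL.mem_cs, Finset.mem_Icc]
          exact ⟨fun h => h.1, fun h => ⟨h, trivial⟩⟩
        unfold Q155.NL.cnt
        rw [h0, Nat.card_Icc]
        omega
      rw [h2]
      congr 2
      unfold Q155.NL.cnt Q155.NL.cs count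
      congr 1
      ext D
      simp
    · have hC : ∀ j, Pool.Agent.Y703.CT.Cls (N j) := fun j => (base_iff (N j)).1 (hN j)
      obtain ⟨e₁, he₁⟩ : ∃ e₁ : ℝ, e₁ = min ε ((0.92 - 2 * mu) / 4) := ⟨_, rfl⟩
      have hmu := mu_lt
      have he0 : 0 < e₁ := by
        rw [he₁]
        exact lt_min hε (by linarith)
      have hea : e₁ ≤ ε := by rw [he₁]; exact min_le_left _ _
      have hec : e₁ ≤ (0.92 - 2 * mu) / 4 := by rw [he₁]; exact min_le_right _ _
      have hall : ∀ᶠ D in atTop, ∀ j, S D → PL (N j) e₁ (sp D) :=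
        eventually_all.2 fun j => hL (N j) (hC j) e₁ he0
      obtain ⟨D₀, hD₀⟩ := eventually_atTop.1 ((hJ M N hC hinj ε hε).and hall)
      refine ⟨D₀, fun D hD hSD a ha hne => ?_⟩
      obtain ⟨hJD, hLD⟩ := hD₀ D hD
      have hJa := hJD hSD a (fun j => (ha j).1) (fun j => (ha j).2)
      have hpos : 0 < (Dk a (sp D)).card := Finset.card_pos.2 hne
      have hpos' : (0 : ℝ) < (Dk a (sp D)).card := by exact_mod_cast hpos
      have hcl : ∀ d ∈ divs a D, ∀ j, Pool.Agent.Y703.CT.Cls (cubeFree (N j * d)) :=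
        fun d hd j => cls_of (hC j) (ha j).1 (ha j).2 hd
      have hrr : ∀ d ∈ divs a D, ∀ i, (rr (cubeFree (N i * d)) = 0 ↔ Good (cubeFree (N i * d))) := by
        intro d hd i
        rw [good_iff]
        exact (sel_N K j (hcl d hd i)).2.2
      have hT : ∀ T : Set (Fin M → ℕ),
          |(((Dk a (sp D)).filter fun d => (fun j => rr (cf (N j * d))) ∈ T).card : ℝ) /
            (Dk a (sp D)).card - ∑' r : T, ∏ j, law (r.1 j)| ≤ ε := by
        intro T
        have h2 := div_abs hpos' (hJa T)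
        have h3 : msJ T = ∑' r : T, ∏ j, law (r.1 j) := by
          rw [← hlaw]
          rfl
        rw [h3] at h2
        exact h2
      have hA : ∀ A : Finset (Fin M), |share N a D (fun n => ∀ j, (Good (n j) ↔ j ∈ A)) -
            c ^ A.card * (1 - c) ^ (M - A.card)| ≤ ε := by
        intro A
        rw [share_eq (Q := fun r => ∀ k, (r k = 0 ↔ k ∈ A)) fun d hd =>
          forall_congr' fun i => by rw [hrr d hd i]]
        have h2 := hT {r | ∀ k, (r k = 0 ↔ k ∈ A)}
        have h3 : ∑' r : {r : Fin M → ℕ | ∀ k, (r k = 0 ↔ k ∈ A)}, ∏ j, law (r.1 j) =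
            c ^ A.card * (1 - c) ^ (M - A.card) := by
          have h4 := Q283.Q3A.meas_A A
          rw [cq_zero, ← hc3, hlaw] at h4
          exact h4
        rw [h3] at h2
        exact h2
      refine ⟨fun T => ?_, hA, ?_, ?_, fun i => ⟨?_, ?_⟩⟩
      · rw [share_eq (Q := fun r => r ∈ T) fun d hd => ?_]
        · exact hT T
        · constructor
          · rintro ⟨r, hr, h3⟩
            have h4 : (fun i => rr (cubeFree (N i * d))) = r := by
              funext i
              have h5 := h3 i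
              beta_reduce at h5
              rw [sel_card K j (hcl d hd i)] at h5
              exact pw_inj h5
            rw [h4]
            exact hr
          · intro h3
            exact ⟨_, h3, fun i => sel_card K j (hcl d hd i)⟩
      · have h2 := (abs_le.1 (hA Finset.univ)).1
        rw [Finset.card_univ, Fintype.card_fin, Nat.sub_self, pow_zero, mul_one] at h2
        have h3 : share N a D (fun n => ∀ j, (Good (n j) ↔ j ∈ (Finset.univ : Finset (Fin M)))) ≤
            share N a D (fun n => ∀ j, BSDRankZero 0 (-432 * (n j : ℤ) ^ 2)) :=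
          share_mono fun d hd h i => bsd (hcl d hd i) ((good_iff _).1 ((h i).2 (Finset.mem_univ i)))
        linarith
      · have h2 := (abs_le.1 (hA ∅)).2
        rw [Finset.card_empty, Nat.sub_zero, pow_zero, one_mul] at h2
        have h3 : share N a D (fun n => ∃ j, Good (n j)) ≤
            share N a D (fun n => ∃ j, BSDRankZero 0 (-432 * (n j : ℤ) ^ 2)) :=
          share_mono fun d hd ⟨i, h⟩ => ⟨i, bsd (hcl d hd i) ((good_iff _).1 h)⟩
        have h4 : share N a D (fun n => ¬ ∃ j, Good (n j)) ≤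
            share N a D (fun n => ∀ j, (Good (n j) ↔ j ∈ (∅ : Finset (Fin M)))) :=
          share_mono fun d hd h i => ⟨fun h' => absurd ⟨i, h'⟩ h, fun h' =>
            absurd h' (Finset.notMem_empty i)⟩
        have h5 := share_not (N := N) hne fun n => ∃ j, Good (n j)
        linarith
      · unfold mean
        have h2 : ∑ d ∈ divs a D, Real.sqrt ((Sel K (cubeFree (N i * d))).ncard / 3) =
            ∑ d ∈ Dk a (sp D), (3 : ℝ) ^ rr (cf (N i * d)) := by
          refine Finset.sum_congr rfl fun d hd => ?_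
          rw [sel_card K j (hcl d hd i)]
          push_cast
          have h3 : (3 : ℝ) ^ (2 * rr (cubeFree (N i * d)) + 1) / 3 =
              ((3 : ℝ) ^ rr (cubeFree (N i * d))) ^ 2 := by
            rw [pow_succ, mul_div_assoc, div_self (by norm_num), mul_one, ← pow_mul, mul_comm]
          rw [h3, Real.sqrt_sq (by positivity)]
          rfl
        rw [h2]
        exact (div_abs hpos' (hLD i hSD a (ha i).1 (ha i).2).mom).trans hea
      · unfold mean
        exact mean_rank (hLD i hSD a (ha i).1 (ha i).2) hpos (R := fun d => rank (cubeFree (N i * d)))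
          (fun d hd => (sel_N K j (hcl d hd i)).2.1) (by linarith)
  · obtain ⟨k, X₀, hk, h⟩ := low_D
    refine ⟨k, X₀, hk, fun X hX => ?_⟩
    have h1 := h X hX
    rw [DS_eq] at h1
    refine le_trans (le_of_eq ?_) h1
    have h2 : (Real.log X) ^ (-(1 / 2) : ℝ) = (Real.sqrt (Real.log X))⁻¹ := by
      rw [Real.rpow_neg (Real.log_natCast_nonneg X), ← Real.sqrt_eq_rpow]
    rw [h2]
    ring
  · rw [← hlaw]
    exact sum_cq
  · rw [hc3]
    exact ⟨Q283.ND.c3_lt.2, Q283.ND.c3_lt.1⟩

end Pool.Agent.Results.MP_696deb_nt.JointLawOverCubicDivisors
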