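import Mathlib
import Pool.Agent.Y703.CX.Rank
import Pool.Agent.Q283.ND.Sh

/-!
# The law of large numbers over the cubic divisors of almost every number

The curve `C_n : y² = x³ - 432 n²` is the cubic twist `x³ + y³ = n`; it is `3`-isogenous to
`E_n : y² + n y = x³` and has the same rank. A number `N` is a BASE if it is cube-free, prime to `3`, not
`±1` modulo `9`, with exactly one prime divisor `2` modulo `3`. A number `D` is SPLIT if it is squarefree
and all its prime divisors are `1` modulo `3`. The `3 ^ ω(D)` divisors `d` of `D²` give the `3 ^ ω(D)`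
twists `E_{N d}` of `E_N` (for `N d` we write its cube-free part `n`; `x³ + y³ = N d` is the same curve); if
`N d` is not `±1` modulo `9` then `n` is again a base.

* For every base `n` the Selmer group of `√-3` of `E_n` over `ℚ(√-3)` has order `3 ^ (2 r + 1)` for some
  `r = r(n)`, the rank of `E_n(ℚ)` is at most `2 r`, and `r = 0` if and only if `E_n(ℚ)` is finite and
  `Ш(E_n/ℚ)[3^∞] = 0` (`n` is GOOD); for good `n` the rank form of the conjecture of Birch and
  Swinnerton-Dyer holds for `C_n`: the `L`-function is entire, its order at `s = 1` and the rank are `0`.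
* THERE IS ONE SET `S` of split numbers, of relative density `1` in the split numbers (natural order), such
  that for EVERY base `N` (whatever the rank of `E_N`) and every `ε > 0` the following holds for all large
  `D` in `S` and all residue classes `a` modulo `9` with `N a` not `±1` modulo `9`, `d` running through the
  divisors `d ≡ a` modulo `9` of `D²` (these are at least a third of all the divisors, if there is one;
  `a = 1` always has one):
  (1) the share of the `d` for which `N d` is good is within `ε` of `c = ∏_{i ≥ 1} (1 - 3^{-i})`,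
      `0.56 < c < 0.5602`; so the rank form holds, with order and rank `0`, for more than `56 %` of the `d`;
  (2) for EVERY set `T` of numbers the share of the `d` with `r(N d)` in `T` is within `ε` of the measure of
      `T` for the law `law r = c 3^r / ((3 - 1)² (9 - 1)² ⋯ (3^r - 1)²)` (uniformly in `T`);
  (3) the mean of `3 ^ r(N d)` is within `ε` of `2`;
  (4) the mean of the ranks of the `E_{N d}(ℚ)` is less than `0.92`.

So the statistics of the family of all cubic twists are seen inside the `3 ^ ω(D)` twists by the divisors of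
almost every single number `D`, around every base at once.
-/

set_option autoImplicit false

open scoped Classical

namespace Pool.Agent.Results.MP_696deb_nt.LawOverCubicDivisors

open Filter WeierstrassCurve
open Pool.Agent.TH841.SH.D (Coch)
open Pool.Agent.TH841.NF.D (IsShaCoc)

/-- the conclusion of the frozen statement for `y² = x³ + a x + b`, together with the fact that the
order of vanishing and the rank are both `0` -/
def BSDRankZero (a b : ℤ) : Prop :=
  4 * a ^ 3 + 27 * b ^ 2 ≠ 0 ∧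
    ∃ F : ℂ → ℂ, Differentiable ℂ F ∧
      (∀ s : ℂ, (3 : ℝ) / 2 < s.re →
        HasProd
          (fun p : ℕ => open Classical in
            if p.Prime ∧ ¬ ((p : ℤ) ∣ 2 * (-4 * a ^ 3 - 27 * b ^ 2)) then
              (1 - ((p : ℂ) - (Nat.card {q : ZMod p × ZMod p //
                  q.2 ^ 2 = q.1 ^ 3 + (a : ZMod p) * q.1 + (b : ZMod p)} : ℂ))
                  * (p : ℂ) ^ (-s) + (p : ℂ) ^ (1 - 2 * s))⁻¹
            else 1)
          (F s)) ∧
      analyticOrderAt F 1 =
        ((Module.finrank ℤ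
          (WeierstrassCurve.Affine.Point
            (WeierstrassCurve.toAffine
              ({ a₁ := 0, a₂ := 0, a₃ := 0, a₄ := (a : ℚ), a₆ := (b : ℚ) } :
                WeierstrassCurve ℚ))) : ℕ) : ℕ∞) ∧
      Module.finrank ℤ
        (WeierstrassCurve.Affine.Point
          (WeierstrassCurve.toAffine
            ({ a₁ := 0, a₂ := 0, a₃ := 0, a₄ := (a : ℚ), a₆ := (b : ℚ) } :
              WeierstrassCurve ℚ))) = 0

/-- The base numbers: cube-free, prime to `3`, not `±1` modulo `9`, exactly one prime divisor is `2`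
modulo `3`. -/
def IsBase (N : ℕ) : Prop :=
  N ≠ 0 ∧ ¬ 3 ∣ N ∧ (∀ p : ℕ, p.Prime → ¬ p ^ 3 ∣ N) ∧ N % 9 ≠ 1 ∧ N % 9 ≠ 8 ∧
    ∃ q : ℕ, q.Prime ∧ q % 3 = 2 ∧ q ∣ N ∧ ∀ p : ℕ, p.Prime → p ∣ N → p ≠ q → p % 3 = 1

/-- The split numbers: squarefree, all prime divisors are `1` modulo `3`. -/
def Split (D : ℕ) : Prop := Squarefree D ∧ ∀ p : ℕ, p.Prime → p ∣ D → p % 3 = 1

/-- The cube-free part of `n`. -/
def cubeFree (n : ℕ) : ℕ := ∏ p ∈ n.primeFactors, p ^ (n.factorization p % 3)

/-- The divisors of `D²` in the residue class `a` modulo `9`. -/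
def divs (a D : ℕ) : Finset ℕ := (D ^ 2).divisors.filter fun d => d % 9 = a

/-- The curve `E_n : y² + n y = x³`. -/
def curve {F : Type} [Field F] (n : F) : WeierstrassCurve F := ⟨0, 0, n, 0, 0⟩

/-- The Selmer group of the endomorphism `√-3` of `E_n` over the field `K` of third roots of unity: the
continuous cocycles with values in its kernel `{0, (0, 0), (0, -n)}` (the Galois group acts trivially on
it, so these cocycles are the classes) that are coboundaries in `E_n` at all the places of `K`. -/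
def Sel (K : Type) [Field K] [NumberField K] (n : ℕ) : Set (Coch (curve (n : K))) :=
  {f | IsShaCoc (curve (n : K)) f ∧ ∀ σ, f σ = 0 ∨ ∃ y h, f σ = Affine.Point.some 0 y h}

/-- the rank of `E_n(ℚ)` -/
noncomputable def rank (n : ℕ) : ℕ := Module.finrank ℤ (curve (n : ℚ)).toAffine.Point

/-- `E_n(ℚ)` is finite and `Ш(E_n/ℚ)[3^∞] = 0` -/
def Good (n : ℕ) : Prop :=
  Finite (curve (n : ℚ)).toAffine.Point ∧
    ∀ (k : ℕ) (x : Pool.Agent.TH841.SH.D.Sha (curve (n : ℚ))), 3 ^ k • x = 0 → x = 0

/-- The share of the `d` in `divs a D` for which the cube-free part of `N d` has the property `P`. -/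
noncomputable def share (N a D : ℕ) (P : ℕ → Prop) : ℝ :=
  (((divs a D).filter fun d => P (cubeFree (N * d))).card : ℝ) / (divs a D).card

/-- The mean of `f` at the cube-free parts of the `N d`, `d` in `divs a D`. -/
noncomputable def mean (N a D : ℕ) (f : ℕ → ℝ) : ℝ :=
  (∑ d ∈ divs a D, f (cubeFree (N * d))) / (divs a D).card

/-- the number of the `D ≤ X` with the property `P` -/
noncomputable def count (P : ℕ → Prop) (X : ℕ) : ℕ := ((Finset.Icc 1 X).filter P).card

/-- `c = ∏_{i ≥ 1} (1 - 3^{-i})` -/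
noncomputable def c : ℝ := ∏' i : ℕ, (1 - (1 / 3 : ℝ) ^ (i + 1))

/-- the law of the coranks of large square matrices over the field with three elements -/
noncomputable def law (r : ℕ) : ℝ := c * 3 ^ r / ∏ i ∈ Finset.range r, ((3 : ℝ) ^ (i + 1) - 1) ^ 2

section proof

open Q283.Q3B Q283.Q3N Q283.ND
open Q283.Q3 (cq cq_eq cq_ge sum_cq cq_zero)

theorem base_iff (N : ℕ) : IsBase N ↔ Pool.Agent.Y703.CT.Cls N := by
  unfold IsBase Pool.Agent.Y703.CT.Cls Pool.Agent.Y703.CT.Base
  tauto

theorem law_eq (r : ℕ) : cq r = law r := cq_eq r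

theorem sel_card (K : Type) [Field K] [NumberField K]
    (j : Pool.Agent.Y692.QS.Ei ≃+* NumberField.RingOfIntegers K) {n : ℕ}
    (hC : Pool.Agent.Y703.CT.Cls n) : (Sel K n).ncard = 3 ^ (2 * rr n + 1) := (sel_N K j hC).1

theorem good_iff (n : ℕ) : Good n ↔ Pool.Agent.Y703.CT.Triv3 n := by
  have h : Pool.Agent.Y703.CT.EQ (Pool.Agent.Y703.CT.WD n) = curve (n : ℚ) := by
    unfold Pool.Agent.Y703.CT.EQ Pool.Agent.Y703.CT.WD curve WeierstrassCurve.map
    simp
  unfold Good Pool.Agent.Y703.CT.Triv3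
  rw [h]

theorem bsd {n : ℕ} (hC : Pool.Agent.Y703.CT.Cls n) (hT : Pool.Agent.Y703.CT.Triv3 n) :
    BSDRankZero 0 (-432 * (n : ℤ) ^ 2) := by
  have hD0 : (n : ℤ) ≠ 0 := by exact_mod_cast hC.1.1
  obtain ⟨F, h1, h2, h3, h4⟩ := Pool.Agent.Y703.CX.rank_form hC ((triv_iff hC).1 hT)
  refine ⟨?_, F, h1, h2, ?_, h4⟩
  · have e : (4 * 0 ^ 3 + 27 * (-432 * (n : ℤ) ^ 2) ^ 2 : ℤ) = 27 * (432 * (n : ℤ) ^ 2) ^ 2 := by ring
    rw [e]
    positivity
  · rw [h3, h4]
    rfl

theorem pw_inj {a b : ℕ} (h : 3 ^ (2 * a + 1) = 3 ^ (2 * b + 1)) : a = b := by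
  have := Nat.pow_right_injective (le_refl 2 |>.trans (by norm_num : 2 ≤ 3)) h
  omega

/-- the cube-free part of `N d` is a base -/
theorem cls_of {N a D d : ℕ} (hN : Pool.Agent.Y703.CT.Cls N) (hD : Dc D) (h1 : N * a % 9 ≠ 1)
    (h8 : N * a % 9 ≠ 8) (hd : d ∈ divs a D) : Pool.Agent.Y703.CT.Cls (cubeFree (N * d)) := by
  obtain ⟨hd1, hd2⟩ := (mem_Dk (k := a) hD.1).1 hd
  have ha : a < 9 := by
    rw [← hd2]
    exact Nat.mod_lt _ (by norm_num)
  have h9 : N * d % 9 = N * a % 9 := by
    rw [Nat.mul_mod, hd2]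
    conv_rhs => rw [Nat.mul_mod, Nat.mod_eq_of_lt ha]
  exact cls_cf hN hD hd1 (by rw [h9]; exact h1) (by rw [h9]; exact h8)

/-- the shares -/
theorem share_eq {N a D : ℕ} {P Q : ℕ → Prop} (h : ∀ d ∈ divs a D, P (cubeFree (N * d)) ↔
    Q (rr (cubeFree (N * d)))) : share N a D P =
      (((Dk a D).filter fun d => rr (cf (N * d)) ∈ {r | Q r}).card : ℝ) / (Dk a D).card := by
  unfold share
  congr 2
  exact Pool.Agent.XLK.fcc fun d hd => h d hd

end proof

open Q283.Q3B Q283.Q3N Q283.ND in
open Q283.Q3 (cq cq_eq cq_ge sum_cq cq_zero) in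
theorem result (K : Type) [Field K] [NumberField K] [IsCyclotomicExtension {3} ℚ K] :
    (∀ n : ℕ, IsBase n → ∃ r : ℕ, (Sel K n).ncard = 3 ^ (2 * r + 1) ∧ rank n ≤ 2 * r ∧
      (r = 0 ↔ Good n) ∧ (Good n → BSDRankZero 0 (-432 * (n : ℤ) ^ 2))) ∧
    (∀ N D d : ℕ, IsBase N → Split D → d ∣ D ^ 2 → N * d % 9 ≠ 1 → N * d % 9 ≠ 8 →
      IsBase (cubeFree (N * d)) ∧ ∃ b : ℕ, N * d = cubeFree (N * d) * b ^ 3) ∧
    (∀ a D : ℕ, Split D → (divs 1 D).Nonempty ∧
      ((divs a D).Nonempty → 3 ^ D.primeFactors.card ≤ 3 * (divs a D).card)) ∧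
    (∃ S : ℕ → Prop,
      Tendsto (fun X : ℕ => (count (fun D => Split D ∧ S D) X : ℝ) / count Split X) atTop (nhds 1) ∧
      ∀ N : ℕ, IsBase N → ∀ ε : ℝ, 0 < ε → ∃ D₀ : ℕ, ∀ D : ℕ, D₀ ≤ D → Split D → S D →
        ∀ a : ℕ, N * a % 9 ≠ 1 → N * a % 9 ≠ 8 → (divs a D).Nonempty →
          |share N a D Good - c| ≤ ε ∧
          0.56 < share N a D (fun n => BSDRankZero 0 (-432 * (n : ℤ) ^ 2)) ∧
          (∀ T : Set ℕ, |share N a D (fun n => ∃ r ∈ T, (Sel K n).ncard = 3 ^ (2 * r + 1)) -
            ∑' r : T, law r| ≤ ε) ∧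
          |mean N a D (fun n => Real.sqrt ((Sel K n).ncard / 3)) - 2| ≤ ε ∧
          mean N a D (fun n => (rank n : ℝ)) < 0.92) ∧
    (∃ (k : ℝ) (X₀ : ℕ), 0 < k ∧ ∀ X : ℕ, X₀ ≤ X →
      k * (X / Real.sqrt (Real.log X)) ≤ (count Split X : ℝ)) ∧
    HasSum law 1 ∧ 0.56 < c ∧ c < 0.5602 := by
  obtain ⟨⟨j, -⟩, -⟩ := Pool.Agent.Y455.CTK.jex K
  have hlaw : cq = law := funext law_eq
  have hc3 : c = Pool.Agent.Y703.CX.c3 := rfl
  refine ⟨fun n hn => ?_, fun N D d hN hD hd h1 h8 => ⟨?_, ?_⟩, fun a D hD => ⟨one_mem hD,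
    fun h => Dk_card hD h⟩, ?_, ?_, ?_, ?_⟩
  · have hC := (base_iff n).1 hn
    obtain ⟨h1, h2, h3⟩ := sel_N K j hC
    exact ⟨_, h1, h2, h3.trans (good_iff _).symm, fun h => bsd hC ((good_iff n).1 h)⟩
  · exact (base_iff _).2 (cls_cf ((base_iff N).1 hN) hD hd h1 h8)
  · have hd0 : d ≠ 0 := by
      rintro rfl
      exact pow_ne_zero 2 hD.1.ne_zero (zero_dvd_iff.1 hd)
    exact ⟨_, cf_mul (mul_ne_zero hN.1 hd0)⟩
  · obtain ⟨S, hS, h⟩ := Q283.ND.main
    refine ⟨S, ?_, fun N hN ε hε => ?_⟩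
    · have h1 := Q155.NL.tendsto_of_alm (C := Dc) ⟨1, le_rfl, squarefree_one, fun p hp hd =>
        absurd (Nat.dvd_one.1 hd) hp.one_lt.ne'⟩ hS
      exact h1
    · have hC := (base_iff N).1 hN
      obtain ⟨e₁, he₁⟩ : ∃ e₁ : ℝ, e₁ = min (min ε ((c - 0.56) / 2)) ((0.92 - 2 * mu) / 4) := ⟨_, rfl⟩
      have hc1 : 0.56 < c := by rw [hc3]; exact Q283.ND.c3_lt.2
      have hmu := mu_lt
      have he0 : 0 < e₁ := by
        rw [he₁]
        exact lt_min (lt_min hε (by linarith)) (by linarith)
      have hea : e₁ ≤ ε := by rw [he₁]; exact (min_le_left _ _).trans (min_le_left _ _)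
      have heb : e₁ ≤ (c - 0.56) / 2 := by
        rw [he₁]; exact (min_le_left _ _).trans (min_le_right _ _)
      have hec : e₁ ≤ (0.92 - 2 * mu) / 4 := by rw [he₁]; exact min_le_right _ _
      obtain ⟨D₀, hD₀⟩ := eventually_atTop.1 (h N hC e₁ he0)
      refine ⟨D₀, fun D hD hDc hSD a h1 h8 hne => ?_⟩
      have hL := hD₀ D hD hDc hSD a h1 h8
      have hpos : 0 < (Dk a D).card := Finset.card_pos.2 hne
      have hpos' : (0 : ℝ) < (Dk a D).card := by exact_mod_cast hpos
      have hcl : ∀ d ∈ divs a D, Pool.Agent.Y703.CT.Cls (cubeFree (N * d)) :=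
        fun d hd => cls_of hC hDc h1 h8 hd
      have hgood : |share N a D Good - c| ≤ e₁ := by
        rw [share_eq (Q := fun r => r = 0) fun d hd => ?_]
        · have h2 := div_abs hpos' (hL.law {r | r = 0})
          have h3 : ms {r | r = 0} = c := by
            have h4 : {r : ℕ | r = 0} = {0} := rfl
            rw [h4, ms_single, cq_zero, hc3]
          rw [h3] at h2
          exact h2
        · rw [good_iff]
          exact (sel_N K j (hcl d hd)).2.2.symm
      refine ⟨hgood.trans hea, ?_, fun T => ?_, ?_, ?_⟩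
      · have h2 : share N a D Good ≤ share N a D (fun n => BSDRankZero 0 (-432 * (n : ℤ) ^ 2)) := by
          unfold share
          refine div_le_div_of_nonneg_right ?_ (Nat.cast_nonneg _)
          rw [Nat.cast_le]
          refine Finset.card_le_card fun d hd => ?_
          rw [Finset.mem_filter] at hd ⊢
          exact ⟨hd.1, bsd (hcl d hd.1) ((good_iff _).1 hd.2)⟩
        have h3 := (abs_le.1 hgood).1
        linarith
      · rw [share_eq (Q := fun r => r ∈ T) fun d hd => ?_]
        · have h2 := div_abs hpos' (hL.law {r | r ∈ T})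
          have h3 : ms {r | r ∈ T} = ∑' r : T, law r := by
            have h4 : {r : ℕ | r ∈ T} = T := rfl
            rw [h4, ← hlaw]
            rfl
          rw [h3] at h2
          exact h2.trans hea
        · have h2 := sel_card K j (hcl d hd)
          constructor
          · rintro ⟨r, hr, h3⟩
            rw [h2] at h3
            rw [pw_inj h3]
            exact hr
          · intro h3
            exact ⟨_, h3, h2⟩
      · unfold mean
        have h2 : ∑ d ∈ divs a D, Real.sqrt ((Sel K (cubeFree (N * d))).ncard / 3) =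
            ∑ d ∈ Dk a D, (3 : ℝ) ^ rr (cf (N * d)) := by
          refine Finset.sum_congr rfl fun d hd => ?_
          rw [sel_card K j (hcl d hd)]
          push_cast
          have h3 : (3 : ℝ) ^ (2 * rr (cubeFree (N * d)) + 1) / 3 =
              ((3 : ℝ) ^ rr (cubeFree (N * d))) ^ 2 := by
            rw [pow_succ, mul_div_assoc, div_self (by norm_num), mul_one, ← pow_mul, mul_comm]
          rw [h3, Real.sqrt_sq (by positivity)]
          rfl
        rw [h2]
        exact (div_abs hpos' hL.mom).trans hea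
      · unfold mean
        exact mean_rank hL hpos (R := fun d => rank (cubeFree (N * d)))
          (fun d hd => (sel_N K j (hcl d hd)).2.1) (by linarith)
  · obtain ⟨k, X₀, hk, h⟩ := low_D
    refine ⟨k, X₀, hk, fun X hX => ?_⟩
    have h1 := h X hX
    rw [DS_eq] at h1
    refine le_trans (le_of_eq ?_) h1
    have h2 : (Real.log X) ^ (-(1 / 2) : ℝ) = (Real.sqrt (Real.log X))⁻¹ := by
      rw [Real.rpow_neg (Real.log_natCast_nonneg X), ← Real.sqrt_eq_rpow]
    rw [h2]
    ring
  · rw [← hlaw]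
    exact sum_cq
  · rw [hc3]
    exact ⟨Q283.ND.c3_lt.2, Q283.ND.c3_lt.1⟩

end Pool.Agent.Results.MP_696deb_nt.LawOverCubicDivisors
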