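import Mathlib
import Pool.Agent.Z705.Fin
import Pool.Agent.Y687.MQ.Fin
import Pool.Agent.Q283.TW.Fin

/-!
# Every twist of `X_0(14)` in the class becomes a twist of rank zero for a positive proportion of primes

`E_D` is the quadratic twist by `D` of the modular curve `X_0(14)` (no complex multiplication). `D` is
ANY element of the class of the theorem `ExactProportion`: squarefree, `1` modulo `4`, a square modulo
`7`, all prime factors split completely in `ℚ(√-1, √2, √-7)` or are inert in `ℚ(√2)` and in `ℚ(√-7)`. No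
condition is put on the rank or on `Ш` of `E_D`, nor on its `L`-series. Then the set of
the split primes `p` for which `E_{Dp}(ℚ)` is finite and `Ш(E_{Dp})[2] = 0` has a natural density
`c(D) > 0` in the set of all split primes, and for all these `p` the order of vanishing of `L(E_{Dp}, s)`
at `s = 1` and the rank are both `0`. Here `c(D)` is the proportion of the nonsingular matrices among the
`2^(n+1)` matrices over `𝔽₂` which arise from the matrix of `D` (of size `n`) by adding a vector `v`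
to the diagonal and bordering by `v` and a corner.

The criterion for a single discriminant and the nonvanishing are the starting results of helper700,
helper17, helper687 and their teams (see `ExactProportion`); Chebotarev's density theorem is the
one of `Pool/Agent/W401/Cheb`. New here (helper283, `Pool/Agent/Q283/TW`): the equidistribution of
the symbols of `p` together with the divisibility by `8` of the number of points modulo `p` (through the
nonabelian extension generated by the square root of `(1 + √-7)/2`), the behaviour of the matrix under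
`D ↦ Dp`, and the positivity.
-/

set_option autoImplicit false

open Finset

namespace Pool.Agent.Results.MP_696deb_nt.PrimeTwistsOfEveryTwist

/-- coefficients of the twist `E_D : y² = x³ + A D x + B D` of `X_0(14)` -/
def A (D : ℤ) : ℤ := 5805 * D ^ 2

/-- coefficients of the twist `E_D : y² = x³ + A D x + B D` of `X_0(14)` -/
def B (D : ℤ) : ℤ := -285714 * D ^ 3

/-- the curve `E_D` over `ℚ` -/
def E (D : ℤ) : WeierstrassCurve ℚ :=
  { a₁ := 0, a₂ := 0, a₃ := 0, a₄ := (A D : ℚ), a₆ := (B D : ℚ) }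

/-- `E_D(ℚ)` is finite and `Ш(E_D/ℚ)` has no element of order two -/
def RankZeroShaTwo (D : ℤ) : Prop :=
  Finite (E D).toAffine.Point ∧ ∀ x : Pool.Agent.TH841.SH.D.Sha (E D), 2 • x = 0 → x = 0

/-- the conclusion of the frozen statement for `y² = x³ + a x + b`, together with the fact that the
order of vanishing and the rank are both `0` -/
def BSDRankZero (a b : ℤ) : Prop :=
  4 * a ^ 3 + 27 * b ^ 2 ≠ 0 ∧
    ∃ F : ℂ → ℂ, Differentiable ℂ F ∧
      (∀ s : ℂ, (3 : ℝ) / 2 < s.re →
        HasProd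
          (fun p : ℕ => open Classical in
            if p.Prime ∧ ¬ ((p : ℤ) ∣ 2 * (-4 * a ^ 3 - 27 * b ^ 2)) then
              (1 - ((p : ℂ) - (Nat.card {q : ZMod p × ZMod p //
                  q.2 ^ 2 = q.1 ^ 3 + (a : ZMod p) * q.1 + (b : ZMod p)} : ℂ))
                  * (p : ℂ) ^ (-s) + (p : ℂ) ^ (1 - 2 * s))⁻¹
            else 1)
          (F s)) ∧
      analyticOrderAt F 1 =
        ((Module.finrank ℤ
          (WeierstrassCurve.Affine.Point
            (WeierstrassCurve.toAffine
              ({ a₁ := 0, a₂ := 0, a₃ := 0, a₄ := (a : ℚ), a₆ := (b : ℚ) } :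
                WeierstrassCurve ℚ))) : ℕ) : ℕ∞) ∧
      Module.finrank ℤ
        (WeierstrassCurve.Affine.Point
          (WeierstrassCurve.toAffine
            ({ a₁ := 0, a₂ := 0, a₃ := 0, a₄ := (a : ℚ), a₆ := (b : ℚ) } :
              WeierstrassCurve ℚ))) = 0

/-- primes inert in `ℚ(√-7)` and in `ℚ(√2)` -/
def Inert (q : ℕ) : Prop :=
  q.Prime ∧ (q % 8 = 3 ∨ q % 8 = 5) ∧ (q % 7 = 3 ∨ q % 7 = 5 ∨ q % 7 = 6)

/-- primes congruent to `1` modulo `8` that split in `ℚ(√-7)` -/
def Split (p : ℕ) : Prop := p.Prime ∧ p % 8 = 1 ∧ (p % 7 = 1 ∨ p % 7 = 2 ∨ p % 7 = 4)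

/-- the family of discriminants: squarefree, `1` modulo `4`, a square modulo `7`, all prime factors
different from `3` and split or inert as above -/
def Family (D : ℤ) : Prop := Squarefree D ∧ D % 4 = 1 ∧ (D % 7 = 1 ∨ D % 7 = 2 ∨ D % 7 = 4) ∧
  ∀ p : ℕ, p.Prime → (p : ℤ) ∣ D → p ≠ 3 ∧ (Split p ∨ Inert p)

/-- the split primes dividing `D` -/
def splitPrimes (D : ℤ) : Finset ℕ := D.natAbs.primeFactors.filter fun p => p % 8 = 1

/-- the number of points of `E_1` modulo `p`, the point at infinity included -/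
noncomputable def points (p : ℕ) : ℕ :=
  Nat.card {q : ZMod p × ZMod p // q.2 ^ 2 = q.1 ^ 3 + 5805 * q.1 - 285714} + 1

open Classical in
/-- the matrix of `D` over `𝔽₂`, indexed by the split primes dividing `D`: the entry at `i ≠ j` is `1`
if and only if `j` is not a square modulo `i`; the entry at `i` on the diagonal is the number of the
prime factors `r ≠ i` of `D` which are not squares modulo `i`, increased by `1` if the number of the
points of `E_1` modulo `i` is not divisible by `8` -/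
noncomputable def mat (D : ℤ) : Matrix (splitPrimes D) (splitPrimes D) (ZMod 2) :=
  Matrix.of fun i j =>
    if i = j then
      (((D.natAbs.primeFactors.filter fun r : ℕ => r ≠ (i : ℕ) ∧
        ¬ IsSquare (r : ZMod (i : ℕ))).card : ZMod 2) + if 8 ∣ points (i : ℕ) then 0 else 1)
    else if IsSquare (((j : ℕ)) : ZMod (i : ℕ)) then 0 else 1

/-- the matrix `M` with `v` added to the diagonal, bordered by `v` and the corner `d` -/
def bordered {n : Type} [DecidableEq n] (M : Matrix n n (ZMod 2)) (v : n → ZMod 2) (d : ZMod 2) :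
    Matrix (n ⊕ Unit) (n ⊕ Unit) (ZMod 2) :=
  Matrix.fromBlocks (M + Matrix.diagonal v) (Matrix.of fun i _ => v i) (Matrix.of fun _ j => v j)
    (Matrix.of fun _ _ => d)

/-- the proportion of the nonsingular matrices among the bordered matrices of `D` -/
noncomputable def c (D : ℤ) : ℝ :=
  (Nat.card {x : (splitPrimes D → ZMod 2) × ZMod 2 // (bordered (mat D) x.1 x.2).det ≠ 0} : ℝ) /
    2 ^ ((splitPrimes D).card + 1)

theorem rank_iff {D : ℤ} (h : Y687.MQ.AdmD D) : RankZeroShaTwo D ↔ (Y687.MQ.matD D).det ≠ 0 := by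
  obtain ⟨hP, hT, -, he⟩ := Y687.MQ.of_admD h
  have h1 := Z704.equivS Z702.f_COC Z702.f_LOT Z702.f_COB Z702.f_TOR Z702.f_LQ Z702.f_LG
    Z702.f_LP Z702.f_LIN Z702.f_TRN Z705.f_SELA Z705.f_SELB (Z705.cnd hP hT)
  have he' : ((Z700.pr (Y687.MQ.SP D) : ℕ) : ℤ) * Y687.DD (Y687.MQ.IP D) = D := he
  rw [he'] at h1
  have hm : Y687.DD (Y687.MQ.IP D) = Z700.pr (Y687.MQ.IP D) ∨
      Y687.DD (Y687.MQ.IP D) = -(Z700.pr (Y687.MQ.IP D) : ℤ) := by
    refine Int.natAbs_eq_natAbs_iff.1 ?_
    rw [Y687.DD_natAbs, Int.natAbs_natCast]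
    rfl
  rw [Y687.MQ.matD_eq, Y687.MQ.matT_iff hP hT, ← Y687.MQ.det_ind hP hT hm, h1]
  unfold RankZeroShaTwo
  refine and_congr Iff.rfl (forall_congr' fun x => ?_)
  rw [two_nsmul]
  rfl

theorem bsd_of {D : ℤ} (hD : D ≠ 0) (h : Y687.WB D) : BSDRankZero (A D) (B D) := by
  obtain ⟨⟨f, hf, hfp, hf1⟩, hfin⟩ := h
  obtain ⟨F, h1, h2, h3, h4⟩ := Y687.rankBSD hf hfp hf1 hfin
  refine ⟨?_, F, h1, h2, ?_, h4⟩
  · have e : 4 * A D ^ 3 + 27 * B D ^ 2 = (4 * 5805 ^ 3 + 27 * 285714 ^ 2) * D ^ 6 := by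
      unfold A B
      ring
    rw [e]
    exact mul_ne_zero (by norm_num) (pow_ne_zero 6 hD)
  · unfold A B
    rw [h3, h4]
    rfl

open Classical in
theorem mat_eq {D : ℤ} (hD : Family D) : mat D = Y687.MQ.matD D := by
  obtain ⟨hP, -, -, -⟩ := Y687.MQ.of_admD (D := D) hD
  ext i j
  have h1 : (8 ∣ points (i : ℕ)) ↔ 8 ∣ Y687.NN 1 (i : ℕ) :=
    Q283.TW.points_iff (hP i i.2)
  show (if i = j then
      (((D.natAbs.primeFactors.filter fun r : ℕ => r ≠ (i : ℕ) ∧
        ¬ IsSquare (r : ZMod (i : ℕ))).card : ZMod 2) + if 8 ∣ points (i : ℕ) then 0 else 1)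
    else if IsSquare (((j : ℕ)) : ZMod (i : ℕ)) then 0 else 1) =
    (if i = j then
      (((D.natAbs.primeFactors.filter fun r : ℕ => r ≠ (i : ℕ) ∧
        ¬ IsSquare (r : ZMod (i : ℕ))).card : ZMod 2) + if 8 ∣ Y687.NN 1 (i : ℕ) then 0 else 1)
    else if IsSquare (((j : ℕ)) : ZMod (i : ℕ)) then 0 else 1)
  by_cases h8 : 8 ∣ points (i : ℕ)
  · rw [if_pos h8, if_pos (h1.1 h8)]
  · rw [if_neg h8, if_neg (fun h => h8 (h1.2 h))]

open Classical in
/-- **Every twist becomes a twist of rank zero for a positive proportion of primes.** -/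
theorem result (D : ℤ) (hD : Family D) :
    0 < c D ∧
    Filter.Tendsto (fun X : ℕ =>
        (((range (X + 1)).filter fun p => Split p ∧ ¬ (p : ℤ) ∣ D ∧
          RankZeroShaTwo (D * p)).card : ℝ) /
        (((range (X + 1)).filter fun p => Split p).card : ℝ)) Filter.atTop (nhds (c D)) ∧
    ∀ p : ℕ, Split p → ¬ (p : ℤ) ∣ D → RankZeroShaTwo (D * p) →
      BSDRankZero (A (D * p)) (B (D * p)) := by
  have hD0 : D ≠ 0 := hD.1.ne_zero
  have hpf : ∀ p : ℕ, Split p → ((¬ (p : ℤ) ∣ D) ↔ p ∉ D.natAbs.primeFactors) := by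
    intro p hp
    rw [Nat.mem_primeFactors, Int.natCast_dvd]
    constructor
    · rintro h ⟨-, h2, -⟩
      exact h h2
    · intro h h2
      exact h ⟨hp.1, h2, Int.natAbs_ne_zero.2 hD0⟩
  have hc : c D = Q283.TW.prop (Y687.MQ.matD D) := by
    unfold c Q283.TW.prop
    rw [mat_eq hD]
    have : Fintype.card (Y687.MQ.SP D) = (splitPrimes D).card := Fintype.card_coe _
    rw [this]
    rfl
  have key : ∀ p : ℕ, Split p → p ∉ D.natAbs.primeFactors →
      ((¬ (p : ℤ) ∣ D ∧ RankZeroShaTwo (D * p)) ↔ (Y687.MQ.matD (D * (p : ℤ))).det ≠ 0) := by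
    intro p hp hpD
    have h1 := Q283.TW.admD_mul (D := D) hD hp hpD
    rw [rank_iff h1]
    exact ⟨fun h => h.2, fun h => ⟨(hpf p hp).2 hpD, h⟩⟩
  refine ⟨?_, ?_, ?_⟩
  · rw [hc]
    exact Q283.TW.prop_pos _
  · rw [hc]
    have h := Q283.TW.twist_density (D := D) hD
      (fun p => ¬ (p : ℤ) ∣ D ∧ RankZeroShaTwo (D * p)) key
    refine h.congr fun X => ?_
    congr
  · intro p hp hpD hR
    have hpD' := (hpf p hp).1 hpD
    have h1 := Q283.TW.admD_mul (D := D) hD hp hpD'
    have h2 := (rank_iff h1).1 hR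
    exact bsd_of (mul_ne_zero hD0 (by exact_mod_cast hp.1.ne_zero)) (Y687.MQ.WB_D h1 h2)

end Pool.Agent.Results.MP_696deb_nt.PrimeTwistsOfEveryTwist
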